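import Pool.Agent.H42.AC.Gd0

/-!
# Linear fillings of light spaces

`light_supp`: the members of a space of weight at most `w` have their nonzero values at `2 w` places in total.
`zeta_ex`: linear fillings of the members of a light space of coboundaries, supported on `2 w L` edges.
-/

set_option autoImplicit false
set_option linter.unusedSectionVars false

namespace Pool.Agent.H42.AC

open Pool.Agent.H42.CS (Pt Ed Sq un inB isE isS mix btw Slot off ed sq box_fin isE_fin isS_fin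
  mix_isE)
open Pool.Agent.H79.CQ (nm Sup dl cob sg ye tau Gad Wd pth iot oo sgs sg_add sg_smul sg_zero sg_eq sg_star
  small_cut dl_add dl_smul dl_cob fill pth_id cob_add)

variable {p : ℕ} [hp : Fact p.Prime]

theorem light_supp {K : Type} [Fintype K] (U : Submodule (ZMod p) (K → ZMod p)) (w : ℕ)
    (h : ∀ y ∈ U, nm y ≤ w) : {k | ∃ y ∈ U, y k ≠ 0}.ncard ≤ 2 * w := by
  classical
  obtain ⟨F, hF⟩ : ∃ F : Finset (K → ZMod p), ∀ y, y ∈ F ↔ y ∈ U :=
    ⟨(Set.toFinite (U : Set (K → ZMod p))).toFinset, fun y => by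
      rw [Set.Finite.mem_toFinset]; rfl⟩
  obtain ⟨S, hS⟩ : ∃ S : Finset K, ∀ k, k ∈ S ↔ ∃ y ∈ U, y k ≠ 0 :=
    ⟨Finset.univ.filter fun k => ∃ y ∈ U, y k ≠ 0, fun k => by simp⟩
  have hSc : {k | ∃ y ∈ U, y k ≠ 0}.ncard = S.card := by
    rw [← Set.ncard_coe_finset]
    congr 1
    ext k
    rw [Finset.mem_coe, hS]
    rfl
  rw [hSc]
  have hnm : ∀ y : K → ZMod p, nm y = (Finset.univ.filter fun k => y k ≠ 0).card := by
    intro y
    unfold nm
    rw [← Set.ncard_coe_finset]
    congr 1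
    ext k
    simp
  have h1 : ∀ k ∈ S, F.card ≤ 2 * (F.filter fun y => y k ≠ 0).card := by
    intro k hk
    obtain ⟨y0, hy0, hk0⟩ := (hS k).1 hk
    have h2 : (F.filter fun y => ¬ y k ≠ 0).card ≤ (F.filter fun y => y k ≠ 0).card := by
      refine Finset.card_le_card_of_injOn (fun y => y + y0) ?_ ?_
      · intro y hy
        rw [Finset.mem_coe, Finset.mem_filter] at hy ⊢
        refine ⟨(hF _).2 (U.add_mem ((hF _).1 hy.1) hy0), ?_⟩
        have h3 : y k = 0 := not_not.1 hy.2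
        show y k + y0 k ≠ 0
        rw [h3, zero_add]
        exact hk0
      · intro y _ y' _ hyy
        exact add_right_cancel hyy
    have h3 := Finset.card_filter_add_card_filter_not (s := F) (fun y => y k ≠ 0)
    omega
  have h2 : S.card * F.card ≤ 2 * (F.card * w) := by
    calc S.card * F.card = ∑ _k ∈ S, F.card := by rw [Finset.sum_const, smul_eq_mul]
      _ ≤ ∑ k ∈ S, 2 * (F.filter fun y => y k ≠ 0).card := Finset.sum_le_sum h1
      _ ≤ ∑ k, 2 * (F.filter fun y => y k ≠ 0).card :=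
          Finset.sum_le_sum_of_subset (Finset.subset_univ _)
      _ = 2 * ∑ k, (F.filter fun y => y k ≠ 0).card := by rw [Finset.mul_sum]
      _ = 2 * ∑ y ∈ F, (Finset.univ.filter fun k => y k ≠ 0).card := by
          congr 1
          simp only [Finset.card_filter]
          exact Finset.sum_comm
      _ ≤ 2 * ∑ _y ∈ F, w := by
          refine Nat.mul_le_mul_left _ (Finset.sum_le_sum fun y hy => ?_)
          rw [← hnm]
          exact h y ((hF y).1 hy)
      _ = 2 * (F.card * w) := by rw [Finset.sum_const, smul_eq_mul]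
  have h3 : 0 < F.card := Finset.card_pos.2 ⟨0, (hF 0).2 U.zero_mem⟩
  have h4 : S.card * F.card ≤ 2 * w * F.card := by
    calc S.card * F.card ≤ 2 * (F.card * w) := h2
      _ = 2 * w * F.card := by ring
  exact Nat.le_of_mul_le_mul_right h4 h3

/-- The relation between a base point, an edge and a square. -/
def Rl {d : ℕ} (p : Pt d) (e : Ed d) (s : Sq d) : Prop :=
  s.2.1 = e.2 ∧ s.1 = mix e.1 p s.2.2 (s.1 s.2.2)

theorem mix_self {d : ℕ} (x p : Pt d) (b : Fin d) (t : ℤ) : mix x p b t b = t := by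
  simp [mix]

/-- The chain for the base point `P`. -/
theorem zp_spec {d : ℕ} (L : ℕ) (z0 : Ed d → ZMod p) (h0 : Sup L z0) (P : Pt d)
    (hP : inB L P) : Sup L (cob L (pth z0 P) + z0) ∧
    dl L (cob L (pth z0 P) + z0) = dl L z0 ∧
    ∀ e, (cob L (pth z0 P) + z0) e ≠ 0 → isE L e ∧ ∃ s, dl L z0 s ≠ 0 ∧ Rl P e s := by
  have hsup : Sup L (cob L (pth z0 P) + z0) := by
    intro e he
    rw [Pi.add_apply, h0 e he, add_zero]
    unfold cob
    rw [if_neg he]
  refine ⟨hsup, by rw [dl_add, dl_cob, zero_add], fun e he => ?_⟩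
  have hE : isE L e := by
    by_contra hE
    exact he (hsup e hE)
  refine ⟨hE, ?_⟩
  obtain ⟨x, a⟩ := e
  have h1 := pth_id L z0 P x a hP hE
  have h2 : (cob L (pth z0 P) + z0) (x, a) =
      z0 (x, a) + pth z0 P x - pth z0 P (x + un a) := by
    rw [Pi.add_apply]
    unfold cob
    rw [if_pos hE]
    ring
  rw [h2, h1] at he
  obtain ⟨b, _, hb⟩ := Finset.exists_ne_zero_of_sum_ne_zero (neg_ne_zero.1 he)
  obtain ⟨t, _, ht⟩ := Finset.exists_ne_zero_of_sum_ne_zero (right_ne_zero_of_mul hb)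
  refine ⟨(mix x P b t, a, b), ht, rfl, ?_⟩
  change mix x P b t = mix x P b (mix x P b t b)
  rw [mix_self]

open Classical in
/-- The number of the pairs of a base point and an edge for one square. -/
theorem pairs {d : ℕ} (L : ℕ) (B : Finset (Pt d)) (hB : ∀ x, x ∈ B ↔ inB L x)
    (E : Finset (Ed d)) (hE : ∀ e, e ∈ E ↔ isE L e) (s : Sq d) :
    ∑ p ∈ B, (E.filter fun e => Rl p e s).card ≤ B.card * L := by
  have h1 : (Finset.Ico (0 : ℤ) L).card = L := by simp
  have h2 : B.card * L = (B ×ˢ Finset.Ico (0 : ℤ) L).card := by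
    rw [Finset.card_product, h1]
  rw [h2, ← Finset.card_sigma]
  obtain ⟨y, a, b⟩ := s
  refine Finset.card_le_card_of_injOn
    (fun q => ((fun i => if i < b then q.1 i else if b < i then q.2.1 i else q.1 b), q.2.1 b))
    ?_ ?_
  · rintro ⟨p, x, a'⟩ hq
    rw [Finset.mem_coe, Finset.mem_sigma, Finset.mem_filter] at hq
    obtain ⟨hp, he, _⟩ := hq
    rw [hB] at hp
    have hx : inB L x := ((hE _).1 he).1
    rw [Finset.mem_coe, Finset.mem_product, hB, Finset.mem_Ico]
    refine ⟨fun i => ?_, hx b⟩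
    change 0 ≤ (if i < b then p i else if b < i then x i else p b) ∧
      (if i < b then p i else if b < i then x i else p b) < (L : ℤ)
    split_ifs
    · exact hp i
    · exact hx i
    · exact hp b
  · rintro ⟨p, x, a'⟩ hq ⟨p', x', a''⟩ hq' heq
    rw [Finset.mem_coe, Finset.mem_sigma, Finset.mem_filter] at hq hq'
    obtain ⟨_, _, ha, hm⟩ := hq
    obtain ⟨_, _, ha', hm'⟩ := hq'
    have ea : a' = a'' := ha.symm.trans ha'
    have e1 := (Prod.ext_iff.1 heq).1
    have e2 : x b = x' b := (Prod.ext_iff.1 heq).2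
    have hy : ∀ i, y i = if i < b then x i else if i = b then y b else p i := fun i =>
      congrFun hm i
    have hy' : ∀ i, y i = if i < b then x' i else if i = b then y b else p' i := fun i =>
      congrFun hm' i
    have e3 : ∀ i, (if i < b then p i else if b < i then x i else p b) =
        (if i < b then p' i else if b < i then x' i else p' b) := fun i => congrFun e1 i
    have hxx : x = x' := by
      funext i
      rcases lt_trichotomy i b with hi | hi | hi
      · have g1 := hy i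
        have g2 := hy' i
        rw [if_pos hi] at g1 g2
        rw [← g1, ← g2]
      · rw [hi]
        exact e2
      · have g := e3 i
        rwa [if_neg hi.not_gt, if_pos hi, if_neg hi.not_gt, if_pos hi] at g
    have hpp : p = p' := by
      funext i
      rcases lt_trichotomy i b with hi | hi | hi
      · have g := e3 i
        rwa [if_pos hi, if_pos hi] at g
      · have g := e3 b
        rw [if_neg (lt_irrefl b), if_neg (lt_irrefl b), if_neg (lt_irrefl b),
          if_neg (lt_irrefl b)] at g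
        rw [hi]
        exact g
      · have g1 := hy i
        have g2 := hy' i
        rw [if_neg hi.not_gt, if_neg hi.ne'] at g1 g2
        rw [← g1, ← g2]
    rw [hxx, hpp, ea]

theorem pth_add {d : ℕ} (z z' : Ed d → ZMod p) (P x : Pt d) :
    pth (z + z') P x = pth z P x + pth z' P x := by
  unfold pth
  simp only [Pi.add_apply, Finset.sum_add_distrib, mul_add]

/-- the chains supported on the edges of the box -/
def SupS (p : ℕ) [Fact p.Prime] (d L : ℕ) : Submodule (ZMod p) (Ed d → ZMod p) where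
  carrier := {z | Sup L z}
  add_mem' := fun h h' => Sup_add L h h'
  zero_mem' := fun _ _ => rfl
  smul_mem' := fun c _ h => Sup_smul L c h

/-- a linear section -/
theorem lin_sec {d : ℕ} {K : Type} (L : ℕ) (j : Sq d → K) :
    ∃ s : (K → ZMod p) → (Ed d → ZMod p), (∀ y, Sup L (s y)) ∧
      (∀ y ∈ DD p L j, iot L j (dl L (s y)) = y) ∧
      ∀ y ∈ DD p L j, ∀ y' ∈ DD p L j, s (y + y') = s y + s y' := by
  classical
  let φ : SupS p d L →ₗ[ZMod p] DD p L j :=
    { toFun := fun z => ⟨iot L j (dl L z.1), z.1, z.2, rfl⟩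
      map_add' := fun z z' => Subtype.ext (lin_add L j z.1 z'.1)
      map_smul' := fun c z => Subtype.ext (lin_smul L j c z.1) }
  have hφ : LinearMap.range φ = ⊤ := by
    rw [LinearMap.range_eq_top]
    rintro ⟨y, z, hz, rfl⟩
    exact ⟨⟨z, hz⟩, rfl⟩
  obtain ⟨s, hs⟩ := φ.exists_rightInverse_of_surjective hφ
  refine ⟨fun y => if h : y ∈ DD p L j then (s ⟨y, h⟩).1 else 0, ?_, ?_, ?_⟩
  · intro y
    dsimp only
    split_ifs with h
    · exact (s ⟨y, h⟩).2
    · exact fun _ _ => rfl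
  · intro y hy
    dsimp only
    rw [dif_pos hy]
    have h1 := congrArg (fun f => (f ⟨y, hy⟩ : DD p L j).1) hs
    exact h1
  · intro y hy y' hy'
    dsimp only
    rw [dif_pos hy, dif_pos hy', dif_pos ((DD p L j).add_mem hy hy')]
    have h1 : (⟨y + y', (DD p L j).add_mem hy hy'⟩ : DD p L j) = ⟨y, hy⟩ + ⟨y', hy'⟩ := rfl
    rw [h1, map_add]
    rfl

/-- linear fillings with small support for a light space -/
theorem zeta_ex {d : ℕ} {K : Type} [Fintype K] (L : ℕ) (hL : 1 ≤ L) (j : Sq d → K)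
    (hj : Set.InjOn j {s | isS L s}) (U : Submodule (ZMod p) (K → ZMod p)) (w : ℕ)
    (hU : ∀ y ∈ U, y ∈ DD p L j → nm y ≤ w) :
    ∃ (ζ : (K → ZMod p) → (Ed d → ZMod p)) (E' : Finset (Ed d)), E'.card ≤ 2 * w * L ∧
      (∀ y ∈ U, y ∈ DD p L j → Sup L (ζ y) ∧ iot L j (dl L (ζ y)) = y ∧ ∀ e, ζ y e ≠ 0 → e ∈ E') ∧
      ∀ y ∈ U, y ∈ DD p L j → ∀ y' ∈ U, y' ∈ DD p L j → ζ (y + y') = ζ y + ζ y' := by
  classical
  obtain ⟨s, hs1, hs2, hs3⟩ := lin_sec (p := p) L j
  obtain ⟨B, hB⟩ : ∃ B : Finset (Pt d), ∀ x, x ∈ B ↔ inB L x :=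
    ⟨(box_fin (d := d) L).1.toFinset, fun x => by rw [Set.Finite.mem_toFinset]; rfl⟩
  obtain ⟨E, hE⟩ : ∃ E : Finset (Ed d), ∀ e, e ∈ E ↔ isE L e :=
    ⟨(isE_fin (d := d) L).toFinset, fun e => by rw [Set.Finite.mem_toFinset]; rfl⟩
  have hBne : B.Nonempty := ⟨0, (hB 0).2 fun i => by
    rw [Pi.zero_apply]
    omega⟩
  obtain ⟨T, hT⟩ : ∃ T : Finset (Sq d), ∀ q, q ∈ T ↔ isS L q ∧ ∃ y ∈ U, y ∈ DD p L j ∧ y (j q) ≠ 0 :=
    ⟨((isS_fin (d := d) L).1.subset fun q (hq : q ∈ {q | isS L q ∧ ∃ y ∈ U, y ∈ DD p L j ∧ y (j q) ≠ 0}) =>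
        hq.1).toFinset, fun q => by rw [Set.Finite.mem_toFinset]; rfl⟩
  have hTc : T.card ≤ 2 * w := by
    have h1 := light_supp (U ⊓ DD p L j) w fun y hy => hU y hy.1 hy.2
    refine le_trans ?_ h1
    rw [← Set.ncard_coe_finset]
    refine Set.ncard_le_ncard_of_injOn j ?_ ?_ (Set.toFinite _)
    · intro q hq
      obtain ⟨_, y, hy, hyD, hyq⟩ := (hT q).1 hq
      exact ⟨y, ⟨hy, hyD⟩, hyq⟩
    · intro q hq q' hq' h
      exact hj ((hT q).1 hq).1 ((hT q').1 hq').1 h
  obtain ⟨EP, hEP⟩ : ∃ EP : Pt d → Finset (Ed d), ∀ P, EP P = T.biUnion fun q => E.filter fun e => Rl P e q :=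
    ⟨_, fun _ => rfl⟩
  have hsum : ∑ P ∈ B, (EP P).card ≤ ∑ _P ∈ B, 2 * w * L := by
    calc ∑ P ∈ B, (EP P).card ≤ ∑ P ∈ B, ∑ q ∈ T, (E.filter fun e => Rl P e q).card :=
          Finset.sum_le_sum fun P _ => by rw [hEP]; exact Finset.card_biUnion_le
      _ = ∑ q ∈ T, ∑ P ∈ B, (E.filter fun e => Rl P e q).card := Finset.sum_comm
      _ ≤ ∑ _q ∈ T, B.card * L := Finset.sum_le_sum fun q _ => pairs L B hB E hE q
      _ = T.card * (B.card * L) := by rw [Finset.sum_const, smul_eq_mul]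
      _ ≤ 2 * w * (B.card * L) := Nat.mul_le_mul_right _ hTc
      _ = ∑ _P ∈ B, 2 * w * L := by
          rw [Finset.sum_const, smul_eq_mul]
          ring
  obtain ⟨P, hP, hle⟩ := Finset.exists_le_of_sum_le hBne hsum
  have hPB : inB L P := (hB P).1 hP
  refine ⟨fun y => cob L (pth (s y) P) + s y, EP P, hle, ?_, ?_⟩
  · intro y hy hyD
    obtain ⟨h1, h2, h3⟩ := zp_spec L (s y) (hs1 y) P hPB
    refine ⟨h1, by rw [h2, hs2 y hyD], fun e he => ?_⟩
    obtain ⟨h4, q, h5, h6⟩ := h3 e he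
    rw [hEP, Finset.mem_biUnion]
    have hqS : isS L q := by
      by_contra h
      exact h5 (dl_off L (s y) q h)
    refine ⟨q, (hT q).2 ⟨hqS, y, hy, hyD, ?_⟩, Finset.mem_filter.2 ⟨(hE e).2 h4, h6⟩⟩
    have h7 := iot_at L j hj (dl L (s y)) q hqS
    rw [hs2 y hyD] at h7
    rw [h7]
    exact h5
  · intro y hy hyD y' hy' hyD'
    dsimp only
    have h1 : pth (s (y + y')) P = pth (s y) P + pth (s y') P := by
      funext x
      rw [hs3 y hyD y' hyD', pth_add]
      rfl
    rw [h1, cob_add, hs3 y hyD y' hyD']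
    abel

end Pool.Agent.H42.AC
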