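import Pool.Agent.H42.AC.Gd1

/-!
# The gadget of the grid with its worlds

Proof of `H6/AC/Gad2.grid_gad2`: for a light space `U` a linear family `ζ` of fillings supported on a set of `2 w L`
edges; the world of `U` for the additive functional `Φ` is `y ↦ Φ (ζ y) - sg L (ζ y - Z y)`.
-/

set_option autoImplicit false
set_option linter.unusedSectionVars false

namespace Pool.Agent.H42.AC

open Pool.Agent.H42.CS (Pt Ed Sq un inB isE isS mix btw Slot off ed sq box_fin isE_fin isS_fin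
  mix_isE)
open Pool.Agent.H79.CQ (nm Sup dl cob sg ye tau Gad Wd pth iot oo sgs sg_add sg_smul sg_zero sg_eq sg_star
  small_cut dl_add dl_smul dl_cob fill pth_id cob_add)

variable {p : ℕ} [hp : Fact p.Prime]

/-- a chain supported on a finite set of edges is small -/
theorem nm_of_supp {d : ℕ} (z : Ed d → ZMod p) (E : Finset (Ed d)) (h : ∀ e, z e ≠ 0 → e ∈ E) :
    nm z ≤ E.card := by
  unfold nm
  rw [← Set.ncard_coe_finset]
  exact Set.ncard_le_ncard (fun e he => h e he) (Finset.finite_toSet _)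

theorem dl_sub {d : ℕ} (L : ℕ) (z z' : Ed d → ZMod p) : dl L (z - z') = dl L z - dl L z' := by
  rw [sub_eq', dl_add, dl_smul, neg_one_smul, sub_eq_add_neg]

theorem grid_gad3 {d : ℕ} {K : Type} [Fintype K] (hd : 3 ≤ d) (L : ℕ) (hL : 100 * d ≤ L)
    (j : Sq d → K) (hj : Set.InjOn j {s | isS L s}) :
    ∃ (g : Gad p K) (c : Ed d → ZMod p), g.w = L ^ (d - 2) / 100 ∧
      (∀ y ∈ g.D, ∀ k, y k ≠ 0 → ∃ s, isS L s ∧ j s = k) ∧
      (∀ e, isE L e → ye p L j e ∈ g.D) ∧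
      (∀ (U : Submodule (ZMod p) (K → ZMod p)) (f : Wd p K), g.Tame U → g.IsW U f →
        ∀ x : Pt d, inB L x → (∀ σ : Slot d, isE L (ed x σ) → ye p L j (ed x σ) ∈ U) →
          (open Classical in (∑ σ : Slot d, if isE L (ed x σ) then
            tau p σ * (f (ye p L j (ed x σ)) + c (ed x σ)) else 0) = if x = 0 then 1 else 0)) ∧
      ∀ w : ℕ, 100 * w ≤ L ^ (d - 2) →
        ∃ (Zs : Submodule (ZMod p) (K → ZMod p) → Finset (Ed d))
          (W : Submodule (ZMod p) (K → ZMod p) → ((Ed d → ZMod p) → ZMod p) → Wd p K),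
          ∀ U : Submodule (ZMod p) (K → ZMod p), (∀ y ∈ U, y ∈ g.D → nm y ≤ w) →
            (Zs U).card ≤ 2 * w * L ∧
            (∀ Φ : (Ed d → ZMod p) → ZMod p, (∀ z z', Φ (z + z') = Φ z + Φ z') →
              g.IsW U (W U Φ)) ∧
            ∀ U' : Submodule (ZMod p) (K → ZMod p), (∀ y ∈ U', y ∈ g.D → nm y ≤ w) → U ≤ U' →
              ∀ Φ Φ' : (Ed d → ZMod p) → ZMod p, (∀ z z', Φ (z + z') = Φ z + Φ z') →
                (∀ z z', Φ' (z + z') = Φ' z + Φ' z') →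
                (∀ z, (∀ e, z e ≠ 0 → e ∈ Zs U) → Φ z = Φ' z) →
                (∀ f : Pt d → ZMod p, 8 * {x | inB L x ∧ f x ≠ 0}.ncard < L ^ d →
                  (∀ e, cob L f e ≠ 0 → e ∈ Zs U ∨ e ∈ Zs U') → Φ' (cob L f) = f 0) →
                g.Agr U (W U Φ) (W U' Φ') := by
  classical
  obtain ⟨g, c, Z, hgD, hkap, hZS, hZ, hgw, hg1, hg2, hg3⟩ := grid_gad_Z (p := p) hd L hL j hj
  refine ⟨g, c, hgw, hg1, hg2, hg3, ?_⟩
  rw [hgD]
  intro w hw
  have hd1 : 1 ≤ d := by omega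
  have hL1 : 1 ≤ L := by omega
  have hw2 : 100 * (L * w) ≤ L ^ (d - 1) := by
    have h1 : L ^ (d - 1) = L * L ^ (d - 2) := by
      rw [← pow_succ']
      congr 1
      omega
    rw [h1]
    calc 100 * (L * w) = L * (100 * w) := by ring
      _ ≤ L * L ^ (d - 2) := Nat.mul_le_mul_left L hw
  have hX : 0 < L ^ (d - 1) := Nat.pow_pos (by omega)
  obtain ⟨M, hM⟩ : ∃ M, M = L * w := ⟨_, rfl⟩
  rw [← hM] at hw2
  -- the fillings of the light spaces
  have hex : ∀ U : Submodule (ZMod p) (K → ZMod p), ∃ (ζ : (K → ZMod p) → (Ed d → ZMod p))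
      (E' : Finset (Ed d)), (∀ y ∈ U, y ∈ DD p L j → nm y ≤ w) → (E'.card ≤ 2 * w * L ∧
      (∀ y ∈ U, y ∈ DD p L j → Sup L (ζ y) ∧ iot L j (dl L (ζ y)) = y ∧ ∀ e, ζ y e ≠ 0 → e ∈ E') ∧
      ∀ y ∈ U, y ∈ DD p L j → ∀ y' ∈ U, y' ∈ DD p L j → ζ (y + y') = ζ y + ζ y') := by
    intro U
    by_cases hU : ∀ y ∈ U, y ∈ DD p L j → nm y ≤ w
    · obtain ⟨ζ, E', h⟩ := zeta_ex L hL1 j hj U w hU
      exact ⟨ζ, E', fun _ => h⟩
    · exact ⟨fun _ => 0, ∅, fun h => absurd h hU⟩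
  choose ζ Zs hζ using hex
  refine ⟨Zs, fun U Φ y => Φ (ζ U y) - sg L (ζ U y - Z y), fun U hU => ?_⟩
  obtain ⟨hc, h1, h2⟩ := hζ U hU
  have hnz : ∀ y ∈ U, y ∈ DD p L j → nm (ζ U y) ≤ 2 * M := by
    intro y hy hyD
    refine (nm_of_supp _ _ (h1 y hy hyD).2.2).trans (hc.trans ?_)
    rw [hM]
    apply le_of_eq
    ring
  have hnZ : ∀ y ∈ U, y ∈ DD p L j → nm (Z y) ≤ M := by
    intro y hy hyD
    rw [hM]
    exact (hZ y hyD).2.trans (Nat.mul_le_mul_left L (hU y hy hyD))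
  -- the closed chain ζ y - Z y
  have hcl : ∀ y ∈ U, y ∈ DD p L j → Sup L (ζ U y - Z y) ∧ dl L (ζ U y - Z y) = 0 ∧
      nm (ζ U y - Z y) ≤ 3 * M := by
    intro y hy hyD
    obtain ⟨a1, a2, a3⟩ := h1 y hy hyD
    refine ⟨Sup_sub L a1 (hZS y), ?_, ?_⟩
    · apply lin_inj L j hj
      rw [lin_sub, a2, (hZ y hyD).1, sub_self]
    · have h3 := nm_sub' L a1 (hZS y)
      have h4 := hnz y hy hyD
      have h5 := hnZ y hy hyD
      omega
  refine ⟨hc, ?_, ?_⟩
  · intro Φ hΦ y hy hyD y' hy' hyD'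
    rw [hgD] at hyD hyD'
    rw [hkap]
    show Φ (ζ U (y + y')) - sg L (ζ U (y + y') - Z (y + y')) =
      Φ (ζ U y) - sg L (ζ U y - Z y) + (Φ (ζ U y') - sg L (ζ U y' - Z y')) +
        sg L (Z (y + y') - Z y - Z y')
    have hyU : y + y' ∈ U := U.add_mem hy hy'
    have hyyD : y + y' ∈ DD p L j := (DD p L j).add_mem hyD hyD'
    obtain ⟨a1, a2, a3⟩ := hcl y hy hyD
    obtain ⟨b1, b2, b3⟩ := hcl y' hy' hyD'
    obtain ⟨c1, c2, c3⟩ := hcl _ hyU hyyD
    have e0 := h2 y hy hyD y' hy' hyD'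
    have s1 : Sup L (Z (y + y') - Z y) := Sup_sub L (hZS _) (hZS _)
    have s2 : Sup L (Z (y + y') - Z y - Z y') := Sup_sub L s1 (hZS _)
    have m1 : nm (Z (y + y') - Z y - Z y') ≤ 3 * M := by
      have n1 := nm_sub' L s1 (hZS y')
      have n2 := nm_sub' L (hZS (y + y')) (hZS y)
      have n3 := hnZ y hy hyD
      have n4 := hnZ y' hy' hyD'
      have n5 := hnZ _ hyU hyyD
      omega
    have d1 : dl L (Z (y + y') - Z y - Z y') = 0 := by
      apply lin_inj L j hj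
      rw [lin_sub, lin_sub, (hZ y hyD).1, (hZ y' hyD').1, (hZ _ hyyD).1]
      abel
    -- the two decompositions of the same chain
    have e1 : (ζ U (y + y') - Z (y + y')) + (Z (y + y') - Z y - Z y') =
        (ζ U y - Z y) + (ζ U y' - Z y') := by
      rw [e0]
      abel
    have e2 := sg_add hd1 L hL1 _ _ c1 s2 c2 d1 (by omega) (by omega) (by
      rw [e1]
      have n1 := nm_add' L a1 b1
      omega)
    have e3 := sg_add hd1 L hL1 _ _ a1 b1 a2 b2 (by omega) (by omega) (by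
      have n1 := nm_add' L a1 b1
      omega)
    rw [e1, e3] at e2
    rw [e0, hΦ, ← e0]
    linear_combination e2
  · intro U' hU' hUU Φ Φ' hΦ hΦ' hag hcut y hy hyD
    rw [hgD] at hyD
    obtain ⟨hc', h1', h2'⟩ := hζ U' hU'
    have hy' : y ∈ U' := hUU hy
    show Φ (ζ U y) - sg L (ζ U y - Z y) = Φ' (ζ U' y) - sg L (ζ U' y - Z y)
    obtain ⟨a1, a2, a3⟩ := h1 y hy hyD
    obtain ⟨b1, b2, b3⟩ := h1' y hy' hyD
    have na : nm (ζ U y) ≤ 2 * M := hnz y hy hyD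
    have nb : nm (ζ U' y) ≤ 2 * M := by
      refine (nm_of_supp _ _ b3).trans (hc'.trans ?_)
      rw [hM]
      apply le_of_eq
      ring
    have nZ := hnZ y hy hyD
    have s1 : Sup L (ζ U y - ζ U' y) := Sup_sub L a1 b1
    have n1 : nm (ζ U y - ζ U' y) ≤ 4 * M := by
      have := nm_sub' L a1 b1
      omega
    have d1 : dl L (ζ U y - ζ U' y) = 0 := by
      apply lin_inj L j hj
      rw [lin_sub, a2, b2, sub_self]
    obtain ⟨f, hf, hfs⟩ := small_cut hd1 L hL1 _ s1 d1 (by omega)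
    have hΦf : Φ' (cob L f) = f 0 := by
      apply hcut f hfs
      intro e he
      rw [← hf, Pi.sub_apply] at he
      by_cases h3 : ζ U y e = 0
      · right
        apply b3
        intro h4
        exact he (by rw [h3, h4, sub_zero])
      · left
        exact a3 e h3
    have hsg : sg L (cob L f) = f 0 := sg_eq hd1 L f hfs
    obtain ⟨c1, c2, c3⟩ := hcl y hy hyD
    have s3 : Sup L (ζ U' y - Z y) := Sup_sub L b1 (hZS y)
    have d3 : dl L (ζ U' y - Z y) = 0 := by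
      apply lin_inj L j hj
      rw [lin_sub, b2, (hZ y hyD).1, sub_self]
    have n3 : nm (ζ U' y - Z y) ≤ 3 * M := by
      have := nm_sub' L b1 (hZS y)
      omega
    have e1 : (ζ U y - ζ U' y) + (ζ U' y - Z y) = ζ U y - Z y := by abel
    have e2 := sg_add hd1 L hL1 _ _ s1 s3 d1 d3 (by omega) (by omega) (by
      rw [e1]
      omega)
    rw [e1, hf, hsg] at e2
    have e3 : Φ (ζ U y) = Φ' (ζ U y) := hag _ a3
    have e4 : Φ' (ζ U y) = Φ' (cob L f) + Φ' (ζ U' y) := by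
      rw [← hΦ', ← hf, sub_add_cancel]
    rw [e3, e4, hΦf, e2]
    ring

end Pool.Agent.H42.AC
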