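import Pool.Agent.H6.AC.Clb

/-!
# Numerics of THEOREM ACS

`num_nat`: if for no `t`, `m`, `L` the inequalities of the core hold, then `r ≤ (C s) ^ (C ^ (dd + 1))`, `S ≤ 2 ^ s`.
`num_acs`: the real form. Everything for general constants `k`, `C0`, `a`.

PROOF of `num_nat`. Let `E = cc (dd + 1) 4 = 5 * 256 ^ (dd + 2)`, `ℓ = Nat.log 2 r`, `t = s + k (ℓ + 2)`, `m = (E a t) ^ E`,
`L = C0 t (m + 1) m + 300`. `19 L ^ 3 ≤ (c E t) ^ (9 E)`, `t ≤ 3 (k + 1) s (ℓ + 1)`, so `19 L ^ 3 ≤ (c' s) ^ (9 E) (E (ℓ + 1)) ^ (9 E)`;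
if `(C s) ^ (C ^ (dd + 1)) < r < 2 ^ (ℓ + 1)`, both factors have squares at most `2 ^ ℓ`.
-/

set_option autoImplicit false

namespace Pool.Agent.H42.AC

open Pool.Agent.H6.AC (cc)

private theorem cc_eq (dd : ℕ) : cc (dd + 1) 4 = 1280 * 256 ^ (dd + 1) := by
  unfold cc
  rw [pow_succ 256 (dd + 1)]
  ring

/-- `(ℓ + 1) ^ (36 E) ≤ 2 ^ ℓ` for `ℓ + 1 ≥ (72 E + 1) ^ 2` -/
private theorem big_pow {E ℓ : ℕ} (h : (72 * E + 1) ^ 2 ≤ ℓ + 1) : (ℓ + 1) ^ (36 * E) ≤ 2 ^ ℓ := by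
  obtain ⟨w, hw⟩ : ∃ w, w = Nat.sqrt (ℓ + 1) := ⟨_, rfl⟩
  have h1 : w * w ≤ ℓ + 1 := by
    rw [hw]
    exact Nat.sqrt_le (ℓ + 1)
  have h2 : ℓ + 1 < (w + 1) * (w + 1) := by
    rw [hw]
    exact Nat.lt_succ_sqrt (ℓ + 1)
  have h3 : 72 * E + 1 ≤ w := by
    rw [hw, Nat.le_sqrt]
    rw [pow_two] at h
    exact h
  have h4 : w + 1 ≤ 2 ^ w := Nat.lt_two_pow_self
  have h5 : ℓ + 1 ≤ 2 ^ (2 * w) := by
    calc ℓ + 1 ≤ (w + 1) * (w + 1) := h2.le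
      _ ≤ 2 ^ w * 2 ^ w := Nat.mul_le_mul h4 h4
      _ = 2 ^ (2 * w) := by rw [← pow_add, two_mul]
  calc (ℓ + 1) ^ (36 * E) ≤ (2 ^ (2 * w)) ^ (36 * E) := Nat.pow_le_pow_left h5 _
    _ = 2 ^ (2 * w * (36 * E)) := (pow_mul _ _ _).symm
    _ ≤ 2 ^ ℓ := by
        refine Nat.pow_le_pow_right (by norm_num) ?_
        have h6 : 2 * w * (36 * E) + w ≤ w * w := by
          calc 2 * w * (36 * E) + w = w * (72 * E + 1) := by ring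
            _ ≤ w * w := Nat.mul_le_mul_left _ h3
        omega

/-- the size of `L` -/
private theorem L_le {E C0 a t : ℕ} (hE : 1 ≤ E) (ha : 1 ≤ a) (ht : 1 ≤ t) :
    (C0 * t * (((E * (a * t)) ^ E + 1) * (E * (a * t)) ^ E) + 300) ^ 3 * 19 ≤
      ((19 * (2 * C0 + 300) ^ 3) * (E * (a * t))) ^ (9 * E) := by
  obtain ⟨v, hv⟩ : ∃ v, v = E * (a * t) := ⟨_, rfl⟩
  rw [← hv]
  have hat : t ≤ a * t := Nat.le_mul_of_pos_left _ ha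
  have htv : t ≤ v := by
    rw [hv]
    exact hat.trans (Nat.le_mul_of_pos_left _ hE)
  have hv1 : 1 ≤ v := ht.trans htv
  obtain ⟨m, hm⟩ : ∃ m, m = v ^ E := ⟨_, rfl⟩
  rw [← hm]
  have hm1 : 1 ≤ m := by
    rw [hm]
    exact Nat.one_le_pow _ _ hv1
  have h1 : C0 * t * ((m + 1) * m) + 300 ≤ (2 * C0 + 300) * v ^ (2 * E + 1) := by
    have h2 : (m + 1) * m ≤ 2 * m ^ 2 := by nlinarith
    have h3 : C0 * t * ((m + 1) * m) ≤ 2 * C0 * (v * m ^ 2) := by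
      calc C0 * t * ((m + 1) * m) ≤ C0 * v * (2 * m ^ 2) :=
            Nat.mul_le_mul (Nat.mul_le_mul_left _ htv) h2
        _ = 2 * C0 * (v * m ^ 2) := by ring
    have h4 : 1 ≤ v * m ^ 2 := Nat.mul_pos hv1 (Nat.pow_pos hm1)
    have h5 : v * m ^ 2 = v ^ (2 * E + 1) := by
      rw [hm, ← pow_mul, ← pow_succ']
      congr 1
      ring
    rw [← h5]
    calc C0 * t * ((m + 1) * m) + 300 ≤ 2 * C0 * (v * m ^ 2) + 300 * (v * m ^ 2) := by omega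
      _ = (2 * C0 + 300) * (v * m ^ 2) := by ring
  obtain ⟨c, hc⟩ : ∃ c, c = 19 * (2 * C0 + 300) ^ 3 := ⟨_, rfl⟩
  have hc1 : 1 ≤ c := by
    rw [hc]
    exact Nat.mul_pos (by norm_num) (Nat.pow_pos (by omega))
  rw [← hc]
  calc (C0 * t * ((m + 1) * m) + 300) ^ 3 * 19 ≤ ((2 * C0 + 300) * v ^ (2 * E + 1)) ^ 3 * 19 :=
        Nat.mul_le_mul_right _ (Nat.pow_le_pow_left h1 _)
    _ = c * v ^ (6 * E + 3) := by
        rw [hc, mul_pow, ← pow_mul]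
        have : (2 * E + 1) * 3 = 6 * E + 3 := by ring
        rw [this]
        ring
    _ ≤ c ^ (6 * E + 3) * v ^ (6 * E + 3) := Nat.mul_le_mul_right _ (Nat.le_self_pow (by omega) _)
    _ = (c * v) ^ (6 * E + 3) := (mul_pow _ _ _).symm
    _ ≤ (c * v) ^ (9 * E) := Nat.pow_le_pow_right (Nat.mul_pos hc1 hv1) (by omega)

theorem num_nat (k C0 a : ℕ) (ha : 1 ≤ a) : ∃ C1 : ℕ, 2 ≤ C1 ∧ ∀ dd r s : ℕ, 1 ≤ s →
    (∀ t m L : ℕ, 100 * 3 ≤ L → L ^ 3 * (1 + 2 * 3 ^ 2) ≤ r → 1 ≤ t → s ≤ t →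
      (2 * (r + 1)) ^ k ≤ 2 ^ t → (cc (dd + 1) 4 * (a * t)) ^ cc (dd + 1) 4 ≤ m →
      C0 * t * ((m + 1) * m) ≤ L → False) →
    r ≤ (C1 * s) ^ (C1 ^ (dd + 1)) := by
  obtain ⟨c2, hc2⟩ : ∃ c2, c2 = 19 * (2 * C0 + 300) ^ 3 * a := ⟨_, rfl⟩
  obtain ⟨c5, hc5⟩ : ∃ c5, c5 = 3 * c2 * (k + 1) := ⟨_, rfl⟩
  obtain ⟨c6, hc6⟩ : ∃ c6, c6 = 5329 * 1280 ^ 2 * 65536 := ⟨_, rfl⟩
  refine ⟨c5 + c6, by rw [hc6]; omega, fun dd r s hs hyp => ?_⟩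
  by_contra hcon
  push Not at hcon
  obtain ⟨C1, hC1⟩ : ∃ C1, C1 = c5 + c6 := ⟨_, rfl⟩
  rw [← hC1] at hcon
  obtain ⟨E, hE⟩ : ∃ E, E = cc (dd + 1) 4 := ⟨_, rfl⟩
  rw [← hE] at hyp
  obtain ⟨Y, hY⟩ : ∃ Y, Y = C1 ^ (dd + 1) := ⟨_, rfl⟩
  rw [← hY] at hcon
  have hE1 : 1 ≤ E := by
    rw [hE, cc_eq]
    exact Nat.mul_pos (by norm_num) (Nat.pow_pos (by norm_num))
  have hC1c : c6 ≤ C1 := by omega
  have hC1c5 : c5 ≤ C1 := by omega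
  -- Y is large
  have hYE : (72 * E + 1) ^ 2 ≤ Y := by
    calc (72 * E + 1) ^ 2 ≤ (73 * E) ^ 2 := Nat.pow_le_pow_left (by omega) _
      _ = 5329 * 1280 ^ 2 * 65536 ^ (dd + 1) := by
          rw [hE, cc_eq, mul_pow, mul_pow, ← pow_mul, mul_comm (dd + 1) 2, pow_mul]
          norm_num
          ring
      _ ≤ (5329 * 1280 ^ 2) ^ (dd + 1) * 65536 ^ (dd + 1) :=
          Nat.mul_le_mul_right _ (Nat.le_self_pow (by omega) _)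
      _ = c6 ^ (dd + 1) := by
          rw [hc6]
          exact (mul_pow _ _ _).symm
      _ ≤ Y := by
          rw [hY]
          exact Nat.pow_le_pow_left hC1c _
  have hr0 : r ≠ 0 := by omega
  obtain ⟨ℓ, hℓ⟩ : ∃ ℓ, ℓ = Nat.log 2 r := ⟨_, rfl⟩
  have hr1 : 2 ^ ℓ ≤ r := by
    rw [hℓ]
    exact Nat.pow_log_le_self 2 hr0
  have hr2 : r < 2 ^ (ℓ + 1) := by
    rw [hℓ]
    exact Nat.lt_pow_succ_log_self (by norm_num) r
  have hX : (C1 * s) ^ Y < 2 ^ (ℓ + 1) := hcon.trans hr2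
  have hC1s : 2 ≤ C1 * s := by
    have h1 : 2 ≤ C1 := by
      rw [hc6] at hC1c
      omega
    calc 2 = 2 * 1 := rfl
      _ ≤ C1 * s := Nat.mul_le_mul h1 hs
  have hYl : Y < ℓ + 1 := by
    have h1 : 2 ^ Y < 2 ^ (ℓ + 1) := lt_of_le_of_lt (Nat.pow_le_pow_left hC1s _) hX
    exact (Nat.pow_lt_pow_iff_right (by norm_num)).1 h1
  have h72 : (72 * E + 1) ^ 2 ≤ ℓ + 1 := hYE.trans hYl.le
  have hℓE : 36 * E + 1 ≤ ℓ ∧ E ≤ ℓ + 1 := by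
    have h1 : 73 * 73 * E ≤ (72 * E + 1) ^ 2 + 73 * 73 * E := by omega
    have h2 : 72 * E + 1 ≤ (72 * E + 1) ^ 2 := Nat.le_self_pow (by norm_num) _
    constructor <;> omega
  have hs1 : 1 ≤ s := hs
  -- the choice of t, m, L
  obtain ⟨t, ht⟩ : ∃ t, t = s + k * (ℓ + 2) := ⟨_, rfl⟩
  have ht1 : 1 ≤ t := by omega
  have htb : t ≤ 3 * (k + 1) * (s * (ℓ + 1)) := by
    have h1 : s ≤ s * (ℓ + 1) := Nat.le_mul_of_pos_right _ (by omega)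
    have h2 : ℓ + 1 ≤ s * (ℓ + 1) := Nat.le_mul_of_pos_left _ hs
    have h3 : ℓ + 2 ≤ 2 * (s * (ℓ + 1)) := by omega
    calc t = s + k * (ℓ + 2) := ht
      _ ≤ s * (ℓ + 1) + k * (2 * (s * (ℓ + 1))) := Nat.add_le_add h1 (Nat.mul_le_mul_left _ h3)
      _ = (1 + 2 * k) * (s * (ℓ + 1)) := by ring
      _ ≤ 3 * (k + 1) * (s * (ℓ + 1)) := Nat.mul_le_mul_right _ (by omega)
  obtain ⟨m, hm⟩ : ∃ m, m = (E * (a * t)) ^ E := ⟨_, rfl⟩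
  refine hyp t m (C0 * t * ((m + 1) * m) + 300) (by omega) ?_ ht1 (by omega) ?_ hm.ge (by omega)
  · -- L ^ 3 * 19 ≤ r
    have h1 := L_le (E := E) (C0 := C0) (a := a) (t := t) hE1 ha ht1
    rw [← hm] at h1
    have h2 : (19 * (2 * C0 + 300) ^ 3) * (E * (a * t)) ≤ (c5 * s) * (E * (ℓ + 1)) := by
      calc (19 * (2 * C0 + 300) ^ 3) * (E * (a * t)) = c2 * E * t := by rw [hc2]; ring
        _ ≤ c2 * E * (3 * (k + 1) * (s * (ℓ + 1))) := Nat.mul_le_mul_left _ htb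
        _ = (c5 * s) * (E * (ℓ + 1)) := by rw [hc5]; ring
    obtain ⟨A, hA⟩ : ∃ A, A = (c5 * s) ^ (9 * E) := ⟨_, rfl⟩
    obtain ⟨B, hB⟩ : ∃ B, B = (E * (ℓ + 1)) ^ (9 * E) := ⟨_, rfl⟩
    have h3 : (C0 * t * ((m + 1) * m) + 300) ^ 3 * 19 ≤ A * B := by
      refine h1.trans ?_
      rw [hA, hB, ← mul_pow]
      exact Nat.pow_le_pow_left h2 _
    have hA2 : A ^ 2 ≤ 2 ^ ℓ := by
      have h4 : (A ^ 2) ^ 2 < (2 ^ ℓ) ^ 2 := by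
        calc (A ^ 2) ^ 2 = (c5 * s) ^ (36 * E) := by
              rw [hA, ← pow_mul, ← pow_mul]
              congr 1
              ring
          _ ≤ (C1 * s) ^ (36 * E) := Nat.pow_le_pow_left (Nat.mul_le_mul_right _ hC1c5) _
          _ ≤ (C1 * s) ^ Y := by
              refine Nat.pow_le_pow_right (by omega) ?_
              have h5 : 72 * E + 1 ≤ (72 * E + 1) ^ 2 := Nat.le_self_pow (by norm_num) _
              omega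
          _ < 2 ^ (ℓ + 1) := hX
          _ ≤ 2 ^ (ℓ * 2) := Nat.pow_le_pow_right (by norm_num) (by omega)
          _ = (2 ^ ℓ) ^ 2 := pow_mul _ _ _
      exact (lt_of_pow_lt_pow_left₀ 2 (Nat.zero_le _) h4).le
    have hB2 : B ^ 2 ≤ 2 ^ ℓ := by
      calc B ^ 2 = (E * (ℓ + 1)) ^ (18 * E) := by
            rw [hB, ← pow_mul]
            congr 1
            ring
        _ ≤ ((ℓ + 1) * (ℓ + 1)) ^ (18 * E) :=
            Nat.pow_le_pow_left (Nat.mul_le_mul_right _ hℓE.2) _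
        _ = (ℓ + 1) ^ (36 * E) := by
            rw [← pow_two, ← pow_mul]
            congr 1
            ring
        _ ≤ 2 ^ ℓ := big_pow h72
    have hAB : A * B ≤ 2 ^ ℓ := by
      have h4 : (A * B) ^ 2 ≤ (2 ^ ℓ) ^ 2 := by
        rw [mul_pow, pow_two (2 ^ ℓ)]
        exact Nat.mul_le_mul hA2 hB2
      exact le_of_sq_le_sq' h4
    exact h3.trans (hAB.trans hr1)
  · -- (2 (r + 1)) ^ k ≤ 2 ^ t
    calc (2 * (r + 1)) ^ k ≤ (2 ^ (ℓ + 2)) ^ k := by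
          refine Nat.pow_le_pow_left ?_ _
          rw [pow_succ 2 (ℓ + 1)]
          omega
      _ = 2 ^ (k * (ℓ + 2)) := by rw [← pow_mul, mul_comm]
      _ ≤ 2 ^ t := Nat.pow_le_pow_right (by norm_num) (by omega)
where
  le_of_sq_le_sq' {x y : ℕ} (h : x ^ 2 ≤ y ^ 2) : x ≤ y := (Nat.pow_le_pow_iff_left (by norm_num)).1 h

/-- the real form: `x ≤ K (r + 1)` -/
theorem num_acs (k C0 a K : ℕ) (ha : 1 ≤ a) : ∃ C : ℕ, 0 < C ∧ ∀ C' : ℕ, C ≤ C' → ∀ dd r S : ℕ, 2 ≤ S →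
    (∀ t m L : ℕ, 100 * 3 ≤ L → L ^ 3 * (1 + 2 * 3 ^ 2) ≤ r → 1 ≤ t → S ≤ 2 ^ t →
      (2 * (r + 1)) ^ k ≤ 2 ^ t → (cc (dd + 1) 4 * (a * t)) ^ cc (dd + 1) 4 ≤ m →
      C0 * t * ((m + 1) * m) ≤ L ^ (3 - 2) → False) →
    ∀ x : ℝ, 0 ≤ x → x ≤ K * (r + 1) →
      (2 : ℝ) ^ (x ^ (1 / (C' : ℝ) ^ (dd + 1)) / C') ≤ S := by
  obtain ⟨C1, hC1, hnat⟩ := num_nat k C0 a ha
  refine ⟨4 * (K + 1) * C1, by positivity, fun C' hC' dd r S hS hyp x hx0 hx => ?_⟩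
  obtain ⟨s, hs⟩ : ∃ s, s = Nat.clog 2 S := ⟨_, rfl⟩
  have hs1 : 1 ≤ s := by
    rw [hs]
    exact Nat.clog_pos (by norm_num) hS
  have hSs : S ≤ 2 ^ s := by
    rw [hs]
    exact Nat.le_pow_clog (by norm_num) S
  have hr := hnat dd r s hs1 (fun t m L h1 h2 h3 h4 h5 h6 h7 =>
    hyp t m L h1 h2 h3 (hSs.trans (Nat.pow_le_pow_right (by norm_num) h4)) h5 h6
      (by rw [show 3 - 2 = 1 from rfl, pow_one]; exact h7))
  have hC'1 : C1 ≤ C' := by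
    refine le_trans ?_ hC'
    exact Nat.le_mul_of_pos_left _ (by positivity)
  have hC'0 : 0 < C' := by omega
  -- x ≤ (2 (K + 1) C1 s) ^ (C' ^ (dd + 1))
  have hY1 : 1 ≤ C' ^ (dd + 1) := Nat.one_le_pow _ _ hC'0
  have hle : K * (r + 1) ≤ (2 * (K + 1) * C1 * s) ^ (C' ^ (dd + 1)) := by
    have hc1s : 1 ≤ C1 * s := Nat.mul_pos (by omega) hs1
    have h1 : r ≤ (C1 * s) ^ (C' ^ (dd + 1)) := hr.trans
      (Nat.pow_le_pow_right hc1s (Nat.pow_le_pow_left hC'1 _))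
    have h2 : 1 ≤ (C1 * s) ^ (C' ^ (dd + 1)) := Nat.one_le_pow _ _ hc1s
    calc K * (r + 1) ≤ (K + 1) * (2 * (C1 * s) ^ (C' ^ (dd + 1))) :=
          Nat.mul_le_mul (by omega) (by omega)
      _ = (2 * (K + 1)) * (C1 * s) ^ (C' ^ (dd + 1)) := by ring
      _ ≤ (2 * (K + 1)) ^ (C' ^ (dd + 1)) * (C1 * s) ^ (C' ^ (dd + 1)) :=
          Nat.mul_le_mul_right _ (Nat.le_self_pow (by omega) _)
      _ = (2 * (K + 1) * C1 * s) ^ (C' ^ (dd + 1)) := by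
          rw [← mul_pow]
          congr 1
          ring
  have hxle : x ≤ ((2 * (K + 1) * C1 * s : ℕ) : ℝ) ^ (C' ^ (dd + 1)) := by
    refine hx.trans ?_
    exact_mod_cast hle
  have hroot : x ^ (1 / (C' : ℝ) ^ (dd + 1)) ≤ ((2 * (K + 1) * C1 * s : ℕ) : ℝ) := by
    have h1 := Real.rpow_le_rpow hx0 hxle (by positivity : 0 ≤ 1 / (C' : ℝ) ^ (dd + 1))
    refine h1.trans (le_of_eq ?_)
    rw [← Real.rpow_natCast, ← Real.rpow_mul (Nat.cast_nonneg _)]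
    have h2 : ((C' ^ (dd + 1) : ℕ) : ℝ) * (1 / (C' : ℝ) ^ (dd + 1)) = 1 := by
      push_cast
      have : (C' : ℝ) ^ (dd + 1) ≠ 0 := by positivity
      field_simp
    rw [h2, Real.rpow_one]
  have hlog : (s : ℝ) ≤ 2 * Real.logb 2 S := by
    have h1 : (1 : ℝ) ≤ Real.logb 2 S := by
      rw [Real.le_logb_iff_rpow_le (by norm_num) (by exact_mod_cast (by omega : 0 < S)), Real.rpow_one]
      exact_mod_cast hS
    have h2 : (s : ℝ) - 1 ≤ Real.logb 2 S := by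
      rw [Real.le_logb_iff_rpow_le (by norm_num) (by exact_mod_cast (by omega : 0 < S))]
      have h3 : 2 ^ (s - 1) < S := by
        rw [hs]
        exact Nat.pow_pred_clog_lt_self (by norm_num) (by omega)
      have h4 : ((s : ℝ) - 1) = ((s - 1 : ℕ) : ℝ) := by
        rw [Nat.cast_sub hs1, Nat.cast_one]
      rw [h4, Real.rpow_natCast]
      exact_mod_cast h3.le
    linarith
  have hfin : x ^ (1 / (C' : ℝ) ^ (dd + 1)) / C' ≤ Real.logb 2 S := by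
    rw [div_le_iff₀ (by exact_mod_cast hC'0)]
    have h1 : ((4 * (K + 1) * C1 : ℕ) : ℝ) ≤ C' := by exact_mod_cast hC'
    have h0 : 0 ≤ Real.logb 2 S := by
      have := hlog
      have h2 : (0 : ℝ) ≤ s := Nat.cast_nonneg s
      linarith
    calc x ^ (1 / (C' : ℝ) ^ (dd + 1)) ≤ ((2 * (K + 1) * C1 * s : ℕ) : ℝ) := hroot
      _ = (2 * (K + 1) * C1 : ℕ) * (s : ℝ) := by push_cast; ring
      _ ≤ (2 * (K + 1) * C1 : ℕ) * (2 * Real.logb 2 S) :=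
          mul_le_mul_of_nonneg_left hlog (Nat.cast_nonneg _)
      _ = Real.logb 2 S * ((4 * (K + 1) * C1 : ℕ) : ℝ) := by push_cast; ring
      _ ≤ Real.logb 2 S * C' := mul_le_mul_of_nonneg_left h1 h0
  calc (2 : ℝ) ^ (x ^ (1 / (C' : ℝ) ^ (dd + 1)) / C') ≤ (2 : ℝ) ^ (Real.logb 2 S) :=
        Real.rpow_le_rpow_of_exponent_le (by norm_num) hfin
    _ = S := Real.rpow_logb (by norm_num) (by norm_num) (by exact_mod_cast (by omega : 0 < S))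

/-- the form asked for by helper63 (with `1 ≤ c8`), for every `C' ≥ C` -/
theorem num (k c8 C0 : ℕ) (hc8 : 1 ≤ c8) : ∃ C : ℕ, 2 ≤ C ∧ ∀ C' : ℕ, C ≤ C' → ∀ dd r X : ℕ, 2 ≤ X →
    (∀ L t m : ℕ, 300 ≤ L → 19 * L ^ 3 ≤ r → 1 ≤ t → X ≤ 2 ^ t → (2 * (r + 1)) ^ k ≤ 2 ^ t →
      (cc (dd + 1) 4 * (c8 * t)) ^ cc (dd + 1) 4 ≤ m → C0 * t * ((m + 1) * m) ≤ L → False) →
    (2 : ℝ) ^ ((r : ℝ) ^ (1 / (C' : ℝ) ^ (dd + 1)) / C') ≤ X := by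
  obtain ⟨C, hC, h⟩ := num_acs k C0 c8 1 hc8
  refine ⟨C + 2, by omega, fun C' hC' dd r X hX hyp => ?_⟩
  refine h C' (by omega) dd r X hX (fun t m L h1 h2 h3 h4 h5 h6 h7 =>
    hyp L t m (by omega) (by rw [mul_comm]; exact h2) h3 h4 h5 h6 (by simpa using h7)) r (Nat.cast_nonneg _) ?_
  push_cast
  linarith

end Pool.Agent.H42.AC
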